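import Pool.Agent.Q247.PG.Count
import Pool.Agent.Q247.PG.Euc

/-!
# The growth exponent of the best approximations to `(φ₄, φ₄²)`

`φ = φ₄` is the real root of `t³ = t + 1` and `Θ = (φ, φ²)`.  For the sup-norm and for the
Euclidean norm the exponent `G(Θ)` is computed; in both cases it lies strictly between `φ²` and
`φ³`, so it is not `φ`.
-/

set_option autoImplicit false

open Filter Topology

namespace Pool.Agent.Results.MP_8d3206_nt.PlasticGrowth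

/-- The sup-norm on `ℝ²`. -/
noncomputable def supNorm (a b : ℝ) : ℝ := max |a| |b|

/-- The Euclidean norm on `ℝ²`. -/
noncomputable def eucNorm (a b : ℝ) : ℝ := Real.sqrt (a ^ 2 + b ^ 2)

/-- `(x, y₁, y₂)` is a best approximation vector of `(φ, φ²)` for the norm `N` on `ℝ²`. -/
def IsBest (N : ℝ → ℝ → ℝ) (φ : ℝ) (x y₁ y₂ : ℤ) : Prop :=
  (x, y₁, y₂) ≠ (0, 0, 0) ∧ ∀ x' y₁' y₂' : ℤ, |x'| ≤ |x| →
    N (x' * φ - y₁') (x' * φ ^ 2 - y₂') ≤ N (x * φ - y₁) (x * φ ^ 2 - y₂) →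
    (x', y₁', y₂') = (0, 0, 0) ∨ (x', y₁', y₂') = (x, y₁, y₂) ∨ (x', y₁', y₂') = (-x, -y₁, -y₂)

/-- The set of the numbers `|x|`, over all best approximation vectors `(x, y₁, y₂)`. -/
def heights (N : ℝ → ℝ → ℝ) (φ : ℝ) : Set ℕ :=
  {m | ∃ x y₁ y₂ : ℤ, IsBest N φ x y₁ y₂ ∧ (m : ℤ) = |x|}

/-- `M_ν` for `ν = 1, 2, 3, …`: the `ν`-th smallest element of `heights N φ`. -/
noncomputable def M (N : ℝ → ℝ → ℝ) (φ : ℝ) (ν : ℕ) : ℕ :=
  Nat.nth (fun m => m ∈ heights N φ) (ν - 1)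

/-- `G(Θ) = liminf M_ν^{1/ν}`. -/
noncomputable def G (N : ℝ → ℝ → ℝ) (φ : ℝ) : ℝ :=
  liminf (fun ν : ℕ => (M N φ ν : ℝ) ^ (1 / (ν : ℝ))) atTop

/-- The density `ρ(w) = 1/2 + arctan((2w - φ²)/√(3φ - φ²))/π`. -/
noncomputable def rho (φ w : ℝ) : ℝ :=
  1 / 2 + Real.arctan ((2 * w - φ ^ 2) / Real.sqrt (3 * φ - φ ^ 2)) / Real.pi

/-- The parameter of the sup-norm. -/
noncomputable def wSup (φ : ℝ) : ℝ := 1 + φ - φ ^ 2

/-- The parameter of the Euclidean norm. -/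
noncomputable def wEuc (φ : ℝ) : ℝ :=
  (φ ^ 2 + 3 * φ + 1 - Real.sqrt (φ ^ 2 + 4 * φ + 1)) / (2 * φ ^ 2 + 3 * φ)

theorem rho_bounds {φ : ℝ} (hφ : φ ^ 3 = φ + 1) {w : ℝ} (h1 : 0.5195 < w) (h2 : w < 0.6) :
    1 / 3 < rho φ w ∧ rho φ w < 1 / 2 := by
  have p1 := Q247.PG.phi_gt hφ
  have p2 := Q247.PG.phi_lt hφ
  have s1 := Q247.PG.phisq_gt hφ
  have s2 := Q247.PG.phisq_lt hφ
  have hR : 1.4895 < Real.sqrt (3 * φ - φ ^ 2) := by
    rw [Real.lt_sqrt (by norm_num)]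
    norm_num at *
    linarith
  have hR0 : 0 < Real.sqrt (3 * φ - φ ^ 2) := lt_trans (by norm_num) hR
  have hπ := Real.pi_pos
  have hneg : (2 * w - φ ^ 2) / Real.sqrt (3 * φ - φ ^ 2) < 0 := by
    apply div_neg_of_neg_of_pos _ hR0
    norm_num at *
    linarith
  have h3 : Real.tan (-(Real.pi / 6)) < (2 * w - φ ^ 2) / Real.sqrt (3 * φ - φ ^ 2) := by
    rw [Real.tan_neg, Real.tan_pi_div_six, lt_div_iff₀ hR0]
    have h4 : Real.sqrt 3 < 1.7321 := by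
      rw [Real.sqrt_lt' (by norm_num)]; norm_num
    have h5 : 0 < Real.sqrt 3 := Real.sqrt_pos.2 (by norm_num)
    have h6 : 0.5773 < 1 / Real.sqrt 3 := by
      rw [lt_div_iff₀ h5]
      norm_num at *
      linarith
    have h7 : 0.5773 * 1.4895 < 1 / Real.sqrt 3 * Real.sqrt (3 * φ - φ ^ 2) :=
      mul_lt_mul'' h6 hR (by norm_num) (by norm_num)
    norm_num at *
    linarith
  have h8 : -(Real.pi / 6) < Real.arctan ((2 * w - φ ^ 2) / Real.sqrt (3 * φ - φ ^ 2)) := by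
    have := Real.arctan_strictMono h3
    rwa [Real.arctan_tan (by linarith) (by linarith)] at this
  have h9 : Real.arctan ((2 * w - φ ^ 2) / Real.sqrt (3 * φ - φ ^ 2)) < 0 :=
    Real.arctan_lt_zero.2 hneg
  rw [rho]
  constructor
  · have : -(1 / 6) < Real.arctan ((2 * w - φ ^ 2) / Real.sqrt (3 * φ - φ ^ 2)) / Real.pi := by
      rw [lt_div_iff₀ hπ]; linarith
    linarith
  · have : Real.arctan ((2 * w - φ ^ 2) / Real.sqrt (3 * φ - φ ^ 2)) / Real.pi < 0 :=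
      div_neg_of_neg_of_pos h9 hπ
    linarith

theorem pow_bounds {φ : ℝ} (hφ : φ ^ 3 = φ + 1) {r : ℝ} (h1 : 1 / 3 < r) (h2 : r < 1 / 2) :
    φ ^ 2 < φ ^ (1 / r) ∧ φ ^ (1 / r) < φ ^ 3 := by
  have p1 := Q247.PG.phi_gt hφ
  have hφ1 : 1 < φ := by linarith
  have hr : 0 < r := by linarith
  constructor
  · rw [← Real.rpow_natCast φ 2]
    apply Real.rpow_lt_rpow_of_exponent_lt hφ1
    rw [lt_div_iff₀ hr]
    push_cast
    linarith
  · rw [← Real.rpow_natCast φ 3]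
    apply Real.rpow_lt_rpow_of_exponent_lt hφ1
    rw [div_lt_iff₀ hr]
    push_cast
    linarith

theorem assemble {φ : ℝ} {N : ℝ → ℝ → ℝ} {g : ℝ}
    (h : Tendsto (fun ν : ℕ => (Nat.nth (fun m => m ∈ heights N φ) ν : ℝ) ^
      ((1 : ℝ) / ((ν : ℝ) + 1))) atTop (𝓝 g)) :
    Tendsto (fun ν : ℕ => (M N φ ν : ℝ) ^ (1 / (ν : ℝ))) atTop (𝓝 g) := by
  rw [← tendsto_add_atTop_iff_nat 1]
  refine h.congr fun ν => ?_
  rw [M]
  push_cast
  simp

/-- **Theorem.**  Let `φ` be the real root of `t³ = t + 1` and `Θ = (φ, φ²)`.  For the sup-norm and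
for the Euclidean norm there are infinitely many best approximation vectors, determined up to sign
by their heights, the limit of `M_ν^{1/ν}` exists, and `G(Θ) = φ^{1/ρ}` with `ρ = ρ(w)` for the
explicit parameter `w` of the norm.  Moreover `φ² < G(Θ) < φ³`; in particular `G(Θ) ≠ φ` for both
norms. -/
theorem result (φ : ℝ) (hφ : φ ^ 3 = φ + 1) :
    ((heights supNorm φ).Infinite ∧
      Tendsto (fun ν : ℕ => (M supNorm φ ν : ℝ) ^ (1 / (ν : ℝ))) atTop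
        (𝓝 (φ ^ (1 / rho φ (wSup φ)))) ∧
      G supNorm φ = φ ^ (1 / rho φ (wSup φ)) ∧
      φ ^ 2 < G supNorm φ ∧ G supNorm φ < φ ^ 3 ∧ G supNorm φ ≠ φ) ∧
    ((heights eucNorm φ).Infinite ∧
      Tendsto (fun ν : ℕ => (M eucNorm φ ν : ℝ) ^ (1 / (ν : ℝ))) atTop
        (𝓝 (φ ^ (1 / rho φ (wEuc φ)))) ∧
      G eucNorm φ = φ ^ (1 / rho φ (wEuc φ)) ∧
      φ ^ 2 < G eucNorm φ ∧ G eucNorm φ < φ ^ 3 ∧ G eucNorm φ ≠ φ) ∧
    (∀ (N : ℝ → ℝ → ℝ) (x y₁ y₂ x' y₁' y₂' : ℤ), IsBest N φ x y₁ y₂ → IsBest N φ x' y₁' y₂' →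
      |x| = |x'| → (x', y₁', y₂') = (x, y₁, y₂) ∨ (x', y₁', y₂') = (-x, -y₁, -y₂)) := by
  have p1 := Q247.PG.phi_gt hφ
  have p2 := Q247.PG.phi_lt hφ
  have s1 := Q247.PG.phisq_gt hφ
  have s2 := Q247.PG.phisq_lt hφ
  have hφ2 : φ < φ ^ 2 := by nlinarith
  refine ⟨?_, ?_, ?_⟩
  · obtain ⟨h1, h2⟩ := Q247.PG.main_growth (w₂ := wSup φ) Q247.PG.supN_ok hφ
      (Q247.PG.sup_dom hφ) (Q247.PG.sup_crit hφ)
    have h3 := assemble h2
    have h4 : G supNorm φ = φ ^ (1 / rho φ (wSup φ)) := h3.liminf_eq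
    obtain ⟨r1, r2⟩ := rho_bounds hφ (w := wSup φ) (by rw [wSup]; norm_num at *; linarith)
      (by rw [wSup]; norm_num at *; linarith)
    obtain ⟨b1, b2⟩ := pow_bounds hφ r1 r2
    refine ⟨h1, h3, h4, ?_, ?_, ?_⟩
    · rw [h4]; exact b1
    · rw [h4]; exact b2
    · rw [h4]; exact (hφ2.trans b1).ne'
  · obtain ⟨h1, h2⟩ := Q247.PG.main_growth (w₂ := wEuc φ) Q247.PG.eucN_ok hφ
      (Q247.PG.euc_dom hφ) (Q247.PG.euc_crit hφ)
    have h3 := assemble h2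
    have h4 : G eucNorm φ = φ ^ (1 / rho φ (wEuc φ)) := h3.liminf_eq
    obtain ⟨r1, r2⟩ := rho_bounds hφ (w := wEuc φ) (Q247.PG.wE_gt hφ)
      ((Q247.PG.wE_lt hφ).trans (by norm_num))
    obtain ⟨b1, b2⟩ := pow_bounds hφ r1 r2
    refine ⟨h1, h3, h4, ?_, ?_, ?_⟩
    · rw [h4]; exact b1
    · rw [h4]; exact b2
    · rw [h4]; exact (hφ2.trans b1).ne'
  · intro N x y₁ y₂ x' y₁' y₂' h h' hxx
    rcases le_total (N (x' * φ - y₁') (x' * φ ^ 2 - y₂')) (N (x * φ - y₁) (x * φ ^ 2 - y₂))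
      with hle | hle
    · rcases h.2 x' y₁' y₂' hxx.ge hle with h0 | h0 | h0
      · exact absurd h0 h'.1
      · exact Or.inl h0
      · exact Or.inr h0
    · rcases h'.2 x y₁ y₂ hxx.le hle with h0 | h0 | h0
      · exact absurd h0 h.1
      · exact Or.inl h0.symm
      · right
        simp only [Prod.mk.injEq] at h0 ⊢
        omega

end Pool.Agent.Results.MP_8d3206_nt.PlasticGrowth
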